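import Mathlib
import Pool.Agent.Helper464.PCF

set_option autoImplicit false

/-!
# MP_374c4e_co: interval graphs

Every connected interval graph `G` satisfies `χ_pcf(G) ≤ min (ω(G) + 1) (Δ(G) + 1)`.
-/

namespace Pool.Agent.Results.MP_374c4e_co.IntervalGraphs

/-- A proper conflict-free colouring: adjacent vertices have different colours, and for every
vertex `v` with at least one neighbour some colour appears on exactly one neighbour of `v`. -/
def IsPCFColouring {V C : Type*} (G : SimpleGraph V) (φ : V → C) : Prop :=
  (∀ u v, G.Adj u v → φ u ≠ φ v) ∧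
    ∀ v, (∃ u, G.Adj v u) → ∃ c, ∃! u, G.Adj v u ∧ φ u = c

/-- An interval graph: the vertices are represented by closed real intervals `[l v, r v]`, and two
different vertices are adjacent if and only if their intervals intersect. -/
def IsInterval {V : Type*} (G : SimpleGraph V) : Prop :=
  ∃ l r : V → ℝ, (∀ v, l v ≤ r v) ∧ ∀ u v, G.Adj u v ↔ u ≠ v ∧ l u ≤ r v ∧ l v ≤ r u

theorem strongly {V : Type} [Fintype V] {G : SimpleGraph V} (hG : IsInterval G) :
    Pool.Agent.Helper464.PCF.IsStronglyChordal G := by
  classical
  obtain ⟨l, r, hlr, hadj⟩ := hG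
  obtain ⟨e⟩ : Nonempty (V ≃ Fin (Fintype.card V)) := ⟨Fintype.equivFin V⟩
  let key : V → ℝ ×ₗ Fin (Fintype.card V) := fun v => toLex (r v, e v)
  have hkey : ∀ x y, key x < key y → r x ≤ r y := by
    intro x y h
    rcases (Prod.Lex.toLex_lt_toLex).1 h with h | h
    · exact h.le
    · exact h.1.le
  have hinj : ∀ x y, key x = key y → x = y := by
    intro x y h
    have h' : (r x, e x) = (r y, e y) := toLex.injective h
    exact e.injective (Prod.ext_iff.1 h').2
  let σ : V → ℕ := fun v => (Finset.univ.filter (fun u => key u < key v)).card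
  have hmono : ∀ x y, key x < key y → σ x < σ y := by
    intro x y h
    apply Finset.card_lt_card
    rw [Finset.ssubset_iff_of_subset]
    · exact ⟨x, by simp [h], by simp⟩
    · intro u hu
      rw [Finset.mem_filter] at hu ⊢
      exact ⟨hu.1, hu.2.trans h⟩
  have hlt : ∀ x y, σ x < σ y → key x < key y := by
    intro x y h
    rcases lt_trichotomy (key x) (key y) with h' | h' | h'
    · exact h'
    · rw [hinj x y h'] at h; exact absurd h (lt_irrefl _)
    · exact absurd (hmono y x h') (not_lt.2 h.le)
  have hle : ∀ x y, σ x < σ y → r x ≤ r y := fun x y h => hkey x y (hlt x y h)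
  refine ⟨σ, ?_, ?_, ?_⟩
  · intro x y h
    rcases lt_trichotomy (key x) (key y) with h' | h' | h'
    · exact absurd h (ne_of_lt (hmono x y h'))
    · exact hinj x y h'
    · exact absurd h (ne_of_gt (hmono y x h'))
  · intro a c d hac hcd hc hd
    rw [hadj] at hc hd ⊢
    have h1 := hle a c hac
    have h2 := hle c d hcd
    refine ⟨fun h => ?_, ?_, ?_⟩
    · rw [h] at hcd; exact absurd hcd (lt_irrefl _)
    · exact (hlr c).trans h2
    · exact hd.2.2.trans h1
  · intro a b c d hab hbc hcd hc hd hbc'
    rw [hadj] at hc hd ⊢
    have h1 := hle a b hab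
    have h2 := hle b c hbc
    have h3 := hle c d hcd
    refine ⟨fun h => ?_, ?_, ?_⟩
    · rw [h] at hbc; exact absurd (hbc.trans hcd) (lt_irrefl _)
    · exact (hlr b).trans (h2.trans h3)
    · exact hd.2.2.trans h1

/-- **Connected interval graphs have a proper conflict-free colouring with
`min (ω(G) + 1) (Δ(G) + 1)` colours.** -/
theorem result {V : Type} [Fintype V] [DecidableEq V] (G : SimpleGraph V)
    [DecidableRel G.Adj] (hG : IsInterval G) (hconn : G.Connected) :
    ∃ φ : V → Fin (min (G.cliqueNum + 1) (G.maxDegree + 1)), IsPCFColouring G φ := by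
  classical
  by_cases hω : G.cliqueNum ≤ G.maxDegree
  · -- list colouring with `ω(G) + 1` colours
    obtain ⟨φ, _, h1, h2⟩ := Pool.Agent.Helper464.PCF.strong G (strongly hG)
      (fun _ => (Finset.univ : Finset (Fin (G.cliqueNum + 1))))
      (fun v => by rw [Finset.card_univ, Fintype.card_fin]; exact min_le_right _ _)
    have he : G.cliqueNum + 1 = min (G.cliqueNum + 1) (G.maxDegree + 1) := by omega
    rw [← he]
    exact ⟨φ, h1, h2⟩
  · -- a complete graph
    rw [not_le] at hω
    obtain ⟨S, hS⟩ := G.exists_isNClique_cliqueNum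
    have hcl : G.IsClique (S : Set V) := hS.isClique
    have hcard : S.card = G.cliqueNum := hS.card_eq
    have hclosed : ∀ v ∈ S, ∀ u, G.Adj v u → u ∈ S := by
      intro v hv u hu
      by_contra hus
      have hsub : insert u (S.erase v) ⊆ G.neighborFinset v := by
        intro x hx
        rw [SimpleGraph.mem_neighborFinset]
        rcases Finset.mem_insert.1 hx with rfl | hx
        · exact hu
        · exact hcl hv (Finset.mem_of_mem_erase hx) (Finset.ne_of_mem_erase hx).symm
      have h1 := Finset.card_le_card hsub
      rw [Finset.card_insert_of_notMem (fun h => hus (Finset.mem_of_mem_erase h)),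
        Finset.card_erase_of_mem hv, SimpleGraph.card_neighborFinset_eq_degree] at h1
      have h2 := G.degree_le_maxDegree v
      have h3 : 0 < S.card := Finset.card_pos.2 ⟨v, hv⟩
      omega
    obtain ⟨v0, hv0⟩ : S.Nonempty := Finset.card_pos.1 (by omega)
    have : Nonempty V := ⟨v0⟩
    have hall : ∀ u, u ∈ S := by
      intro u
      obtain ⟨w⟩ := hconn.preconnected v0 u
      have hw : ∀ x y : V, G.Walk x y → x ∈ S → y ∈ S := by
        intro x y w
        induction w with
        | nil => exact id
        | cons h _ ih => exact fun hx => ih (hclosed _ hx _ h)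
      exact hw v0 u w hv0
    have hSuniv : S = Finset.univ := Finset.eq_univ_iff_forall.2 hall
    have hV : Fintype.card V = G.maxDegree + 1 := by
      have h1 : Fintype.card V = G.cliqueNum := by
        rw [← hcard, hSuniv, Finset.card_univ]
      have h2 : G.degree v0 + 1 ≤ Fintype.card V := G.degree_lt_card_verts v0
      have h3 : G.maxDegree < Fintype.card V := G.maxDegree_lt_card_verts
      have h4 : S.card - 1 ≤ G.degree v0 := by
        rw [← Finset.card_erase_of_mem hv0, ← SimpleGraph.card_neighborFinset_eq_degree]
        apply Finset.card_le_card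
        intro x hx
        rw [SimpleGraph.mem_neighborFinset]
        exact hcl hv0 (Finset.mem_of_mem_erase hx) (Finset.ne_of_mem_erase hx).symm
      have h5 := G.degree_le_maxDegree v0
      omega
    have he : Fintype.card V = min (G.cliqueNum + 1) (G.maxDegree + 1) := by omega
    rw [← he]
    refine ⟨Fintype.equivFin V, fun u v h h' => h.ne ((Fintype.equivFin V).injective h'), ?_⟩
    rintro v ⟨u, hu⟩
    exact ⟨Fintype.equivFin V u, u, ⟨hu, rfl⟩,
      fun w hw => (Fintype.equivFin V).injective hw.2⟩

end Pool.Agent.Results.MP_374c4e_co.IntervalGraphs
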